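import Mathlib
import Pool.Agent.H93.Gam2

namespace Pool.Agent.Results.MP_749e55_an.Yes

/-- The simultaneous packing and covering constant for the norm `N`. -/
noncomputable def gamma {X : Type} [Sub X] (N : X → ℝ) : ℝ :=
  sInf {r : ℝ | 0 < r ∧ ∃ P : Set X,
    (∀ x ∈ P, ∀ y ∈ P, x ≠ y → 2 ≤ N (x - y)) ∧ ∀ x, ∃ p ∈ P, N (x - p) ≤ r}

/-- `N` is equivalent to the given norm. -/
def Equivalent {X : Type} [Norm X] (N : X → ℝ) : Prop :=
  ∃ c C : ℝ, 0 < c ∧ ∀ x, c * ‖x‖ ≤ N x ∧ N x ≤ C * ‖x‖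

/-- Some equivalent norm on `X` has packing and covering constant larger than `√2`. -/
def HasLarge (X : Type) [NormedAddCommGroup X] [NormedSpace ℝ X] : Prop :=
  ∃ N : Seminorm ℝ X, Equivalent (fun x => N x) ∧ Real.sqrt 2 < gamma (fun x => N x)

theorem result : HasLarge (lp (fun _ : ℕ => ℝ) 2) :=
  Pool.Agent.H93.Gam.main

end Pool.Agent.Results.MP_749e55_an.Yes
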